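import Mathlib
import Pool.Agent.Lib.MP_1d980c_gt.Hyp.ExistsLH
import Pool.Agent.Lib.MP_1d980c_gt.Hyp.Assembly
import Pool.Agent.Lib.MP_1d980c_gt.Hyp.CocycleH

set_option autoImplicit false
open scoped UpperHalfPlane MatrixGroups Manifold ContDiff Matrix

namespace Pool.Agent.Results.MP_1d980c_gt.HigherGenusBundles

/-- The identifications defining an affine torus bundle over the surface `Γ \ ℍ`:
on `ℝⁿ × ℍ` with coordinates `(v, w)`, translate `v` by a vector `u ∈ Λ`, or, for `γ ∈ Γ`, apply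
`(v, w) ↦ (ρ(γ) v + a_γ(w), γ • w)`. -/
inductive Step {n : ℕ} (Γ : Subgroup SL(2, ℝ)) (ρ : Γ →* Matrix (Fin n) (Fin n) ℝ)
    (Λ : Set (Fin n → ℝ)) (a : Γ → ℍ → (Fin n → ℝ)) :
    (Fin n → ℝ) × ℍ → (Fin n → ℝ) × ℍ → Prop
  | fibre (u : Fin n → ℝ) (hu : u ∈ Λ) (v : Fin n → ℝ) (w : ℍ) : Step Γ ρ Λ a (v, w) (v + u, w)
  | base (γ : Γ) (v : Fin n → ℝ) (w : ℍ) : Step Γ ρ Λ a (v, w) (ρ γ *ᵥ v + a γ w, γ • w)

open Pool.Agent.HypBundle in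
/-- Every smooth manifold of real dimension `2k = 2(m+1) ≥ 6` which is an affine `T^{2m}`-bundle
over a closed surface of genus at least two, with topologically trivial flat vertical bundle,
carries a complex structure compatible with its smooth structure. -/
theorem result (m : ℕ) (hm : 2 ≤ m) (Γ : Subgroup SL(2, ℝ)) [DiscreteTopology Γ]
    (hfree : ∀ γ : Γ, γ ≠ 1 → ∀ w : ℍ, γ • w ≠ w)
    (hcoc : ∃ K : Set ℍ, IsCompact K ∧ ∀ w : ℍ, ∃ γ : Γ, γ • w ∈ K)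
    (ρ : Γ →* Matrix (Fin (2 * m)) (Fin (2 * m)) ℝ)
    (V : ℍ → Matrix (Fin (2 * m)) (Fin (2 * m)) ℝ) (hV : Continuous V) (hVu : ∀ w, IsUnit (V w))
    (hVe : ∀ (γ : Γ) (w : ℍ), V (γ • w) * ρ γ = V w)
    (Λ : Set (Fin (2 * m) → ℝ)) (a : Γ → ℍ → (Fin (2 * m) → ℝ))
    (ha : ∀ γ, ContMDiff 𝓘(ℝ, ℂ) 𝓘(ℝ, Fin (2 * m) → ℝ) ∞ (a γ))
    (hc : ∀ γ δ : Γ, ∃ c : Fin (2 * m) → ℝ, ∀ w : ℍ,
      a (γ * δ) w = ρ γ *ᵥ a δ w + a γ (δ • w) + c)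
    (M : Type) [TopologicalSpace M] [ChartedSpace (EuclideanSpace ℝ (Fin (2 * (m + 1)))) M]
    [IsManifold (𝓡 (2 * (m + 1))) ∞ M]
    (π : (Fin (2 * m) → ℝ) × ℍ → M)
    (hπ : IsLocalDiffeomorph (𝓘(ℝ, Fin (2 * m) → ℝ).prod 𝓘(ℝ, ℂ)) (𝓡 (2 * (m + 1))) ∞ π)
    (hs : Function.Surjective π)
    (hfib : ∀ p p', π p = π p' ↔ Relation.EqvGen (Step Γ ρ Λ a) p p') :
    ∃ (N : Type) (_ : TopologicalSpace N) (_ : ChartedSpace (EuclideanSpace ℂ (Fin (m + 1))) N),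
      IsManifold 𝓘(ℂ, EuclideanSpace ℂ (Fin (m + 1))) ∞ N ∧
      Nonempty (Diffeomorph (𝓡 (2 * (m + 1))) 𝓘(ℝ, EuclideanSpace ℂ (Fin (m + 1))) M N ∞) := by
  obtain ⟨L, k, hL, hLe, hnd⟩ := exists_LH m hm Γ hfree hcoc ρ V hV hVu hVe
  obtain ⟨ψ, s, hψ, hs', hψs⟩ := exists_psi Γ hcoc ρ a ha hc
  refine assembly Γ ρ L (fun γ w i => jf (γ : SL(2, ℝ)) w ^ k i) hL
    (fun γ i => (differentiableOn_jf _).pow _) (fun γ w hw i => pow_ne_zero _ (jf_ne hw)) hLe hnd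
    a (fun γ => (ha γ).continuous) ψ s hψ hs' hψs Λ M π hπ hs (Step Γ ρ Λ a) ?_ ?_ ?_ hfib
  · rintro _ _ (⟨u, hu, v, w⟩ | ⟨γ, v, w⟩)
    · exact Or.inl ⟨u, hu, rfl⟩
    · exact Or.inr ⟨γ, rfl⟩
  · intro u hu v w
    exact Step.fibre u hu v w
  · intro γ v w
    exact Step.base γ v w

end Pool.Agent.Results.MP_1d980c_gt.HigherGenusBundles
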